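import Mathlib

set_option autoImplicit false

/-!
# Countable weak `π`-bases of unit balls of spaces with a `1`-unconditional basis

Main lemma: let `e` be a `1`-unconditional basis, `x₀` in the unit ball and `f i` finitely many
functionals.  There are a vector `a` in the unit ball with finite support and `m`, `δ > 0` such that
all `b` in the unit ball whose first `m` coordinates are `δ`-close to those of `a` satisfy
`|f i b - f i x₀| < ε`.

Idea: `x` is a vector with finite support close to `x₀`.  Among the vectors `z` with support in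
`[n, ∞)` and `‖x + z‖ ≤ 1` consider the supremum of `∑ |z j| ∑ |f i (e j)|`, and its limit as
`n → ∞`.  If `z`, `z'` almost attain the limit, the support of `z'` is after that of `z`, and
`f i z ≈ f i z'`, then we can take `a = x + (z - z') / 2`.
-/

namespace Pool.Agent.X210.PiBase

open Finset Filter Topology

variable {X : Type} [NormedAddCommGroup X] [NormedSpace ℝ X]

/-- `1`-unconditional basis -/
structure Unc (e : ℕ → X) : Prop where
  basis : ∀ x : X, ∃! a : ℕ → ℝ, HasSum (fun n => a n • e n) x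
  sign : ∀ (s : Finset ℕ) (a ε : ℕ → ℝ), (∀ n, ε n = 1 ∨ ε n = -1) →
    ‖∑ n ∈ s, (ε n * a n) • e n‖ ≤ ‖∑ n ∈ s, a n • e n‖

variable {e : ℕ → X}

/-- the coordinates -/
noncomputable def co (h : Unc e) (x : X) : ℕ → ℝ := (h.basis x).choose

theorem co_hasSum (h : Unc e) (x : X) : HasSum (fun n => co h x n • e n) x :=
  (h.basis x).choose_spec.1

theorem co_unique (h : Unc e) {x : X} {a : ℕ → ℝ} (ha : HasSum (fun n => a n • e n) x) :
    co h x = a := ((h.basis x).choose_spec.2 a ha).symm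

theorem co_add (h : Unc e) (x y : X) : co h (x + y) = co h x + co h y := by
  apply co_unique
  have := (co_hasSum h x).add (co_hasSum h y)
  simpa only [Pi.add_apply, add_smul] using this

theorem co_smul (h : Unc e) (c : ℝ) (x : X) : co h (c • x) = c • co h x := by
  apply co_unique
  have := (co_hasSum h x).const_smul c
  simpa only [Pi.smul_apply, smul_eq_mul, mul_smul] using this

theorem norm_proj_finset (h : Unc e) (a : ℕ → ℝ) {s t : Finset ℕ} (hst : s ⊆ t) :
    ‖∑ n ∈ s, a n • e n‖ ≤ ‖∑ n ∈ t, a n • e n‖ := by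
  classical
  have h1 := h.sign t a (fun n => if n ∈ s then 1 else -1) (fun n => by
    by_cases hn : n ∈ s
    · left; simp [hn]
    · right; simp [hn])
  have h2 : ∑ n ∈ t, a n • e n + ∑ n ∈ t, ((if n ∈ s then (1 : ℝ) else -1) * a n) • e n =
      (2 : ℝ) • ∑ n ∈ s, a n • e n := by
    rw [← sum_add_distrib, smul_sum, ← sum_subset hst]
    · refine sum_congr rfl fun n hn => ?_
      rw [if_pos hn, one_mul, two_smul]
    · intro n _ hn
      rw [if_neg hn]
      simp
  have h3 : ‖(2 : ℝ) • ∑ n ∈ s, a n • e n‖ ≤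
      ‖∑ n ∈ t, a n • e n‖ + ‖∑ n ∈ t, a n • e n‖ := by
    rw [← h2]
    exact (norm_add_le _ _).trans (by linarith)
  rw [norm_smul] at h3
  norm_num at h3
  linarith

theorem norm_proj (h : Unc e) (x : X) (s : Finset ℕ) : ‖∑ n ∈ s, co h x n • e n‖ ≤ ‖x‖ := by
  have h1 : Tendsto (fun t : Finset ℕ => ‖∑ n ∈ t, co h x n • e n‖) atTop (𝓝 ‖x‖) :=
    (continuous_norm.tendsto x).comp (co_hasSum h x)
  refine ge_of_tendsto h1 ?_
  filter_upwards [eventually_ge_atTop s] with t ht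
  exact norm_proj_finset h _ ht

theorem e_ne_zero (h : Unc e) (n : ℕ) : e n ≠ 0 := by
  classical
  intro h0
  have h1 : HasSum (fun k => (0 : ℕ → ℝ) k • e k) 0 := by simp
  have h2 : HasSum (fun k => (Pi.single n (1 : ℝ) : ℕ → ℝ) k • e k) 0 := by
    have : (fun k => (Pi.single n (1 : ℝ) : ℕ → ℝ) k • e k) = fun _ => 0 := by
      funext k
      by_cases hk : k = n
      · subst hk; simp [h0]
      · simp [hk]
    rw [this]
    exact hasSum_zero
  have h3 := (co_unique h h1).symm.trans (co_unique h h2)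
  have h4 := congrFun h3 n
  simp at h4

/-- the coordinate functionals -/
noncomputable def coL (h : Unc e) (n : ℕ) : X →L[ℝ] ℝ :=
  LinearMap.mkContinuous
    { toFun := fun x => co h x n
      map_add' := fun x y => by rw [co_add]; rfl
      map_smul' := fun c x => by rw [co_smul]; rfl } (1 / ‖e n‖) (by
    intro x
    show ‖co h x n‖ ≤ _
    have h1 := norm_proj h x {n}
    rw [sum_singleton, norm_smul] at h1
    have h2 : 0 < ‖e n‖ := norm_pos_iff.2 (e_ne_zero h n)
    rw [one_div, inv_mul_eq_div, le_div_iff₀ h2]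
    exact h1)

theorem coL_apply (h : Unc e) (n : ℕ) (x : X) : coL h n x = co h x n := rfl

theorem co_sum (h : Unc e) (a : ℕ → ℝ) (s : Finset ℕ) (n : ℕ) :
    co h (∑ j ∈ s, a j • e j) n = if n ∈ s then a n else 0 := by
  classical
  have h1 : HasSum (fun k => (if k ∈ s then a k else 0) • e k) (∑ j ∈ s, a j • e j) := by
    have h2 : HasSum (fun k => (if k ∈ s then a k else 0) • e k)
        (∑ b ∈ s, (if b ∈ s then a b else 0) • e b) :=
      hasSum_sum_of_ne_finset_zero (fun b hb => by rw [if_neg hb, zero_smul])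
    have h3 : ∑ b ∈ s, (if b ∈ s then a b else 0) • e b = ∑ j ∈ s, a j • e j :=
      sum_congr rfl fun b hb => by rw [if_pos hb]
    rw [h3] at h2
    exact h2
  rw [co_unique h h1]

theorem abs_sum_le (h : Unc e) (f : X →L[ℝ] ℝ) (a : ℕ → ℝ) (s : Finset ℕ) :
    ∑ j ∈ s, |a j| * |f (e j)| ≤ ‖f‖ * ‖∑ j ∈ s, a j • e j‖ := by
  have h1 := h.sign s a (fun j => if 0 ≤ a j * f (e j) then 1 else -1) (fun n => by
    by_cases hn : 0 ≤ a n * f (e n)
    · left; simp [hn]
    · right; simp [hn])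
  have h2 : f (∑ j ∈ s, ((if 0 ≤ a j * f (e j) then (1 : ℝ) else -1) * a j) • e j) =
      ∑ j ∈ s, |a j| * |f (e j)| := by
    rw [map_sum]
    refine sum_congr rfl fun j _ => ?_
    rw [map_smul, smul_eq_mul, ← abs_mul]
    by_cases hn : 0 ≤ a j * f (e j)
    · rw [if_pos hn, abs_of_nonneg hn]; ring
    · rw [if_neg hn, abs_of_neg (not_le.1 hn)]; ring
  rw [← h2]
  calc f (∑ j ∈ s, ((if 0 ≤ a j * f (e j) then (1 : ℝ) else -1) * a j) • e j)
      ≤ ‖f (∑ j ∈ s, ((if 0 ≤ a j * f (e j) then (1 : ℝ) else -1) * a j) • e j)‖ :=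
        le_abs_self _
    _ ≤ ‖f‖ * ‖∑ j ∈ s, ((if 0 ≤ a j * f (e j) then (1 : ℝ) else -1) * a j) • e j‖ :=
        f.le_opNorm _
    _ ≤ ‖f‖ * ‖∑ j ∈ s, a j • e j‖ := mul_le_mul_of_nonneg_left h1 (norm_nonneg _)

section Main

variable {ι : Type} [Fintype ι] (f : ι → X →L[ℝ] ℝ)

/-- the weights -/
noncomputable def g (e : ℕ → X) (j : ℕ) : ℝ := ∑ i, |f i (e j)|

theorem g_nonneg (j : ℕ) : 0 ≤ g f e j := sum_nonneg fun _ _ => abs_nonneg _

theorem abs_le_g (i : ι) (j : ℕ) : |f i (e j)| ≤ g f e j :=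
  single_le_sum (f := fun i => |f i (e j)|) (fun _ _ => abs_nonneg _) (mem_univ i)

theorem sum_g_le (h : Unc e) (a : ℕ → ℝ) (s : Finset ℕ) :
    ∑ j ∈ s, |a j| * g f e j ≤ (∑ i, ‖f i‖) * ‖∑ j ∈ s, a j • e j‖ := by
  unfold g
  have h1 : ∑ j ∈ s, |a j| * ∑ i, |f i (e j)| = ∑ i, ∑ j ∈ s, |a j| * |f i (e j)| := by
    rw [sum_comm]
    refine sum_congr rfl fun j _ => ?_
    rw [mul_sum]
  rw [h1, sum_mul]
  exact sum_le_sum fun i _ => abs_sum_le h (f i) a s

/-- the values of the admissible extensions of `α` -/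
def A (f : ι → X →L[ℝ] ℝ) (e : ℕ → X) (α : ℕ → ℝ) (n : ℕ) : Set ℝ :=
  {t | ∃ (m : ℕ) (a : ℕ → ℝ), n ≤ m ∧ (∀ j < n, a j = α j) ∧
    ‖∑ j ∈ range m, a j • e j‖ ≤ 1 ∧ t = ∑ j ∈ Ico n m, |a j| * g f e j}

theorem A_le (h : Unc e) {α : ℕ → ℝ} {n : ℕ} {t : ℝ} (ht : t ∈ A f e α n) :
    t ≤ ∑ i, ‖f i‖ := by
  obtain ⟨m, a, hnm, -, hnorm, rfl⟩ := ht
  have h1 := sum_g_le f h a (Ico n m)
  have h2 : Ico n m ⊆ range m := by
    intro j hj
    rw [mem_Ico] at hj
    rw [mem_range]
    exact hj.2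
  have h3 := (norm_proj_finset h a h2).trans hnorm
  have h4 : 0 ≤ ∑ i, ‖f i‖ := sum_nonneg fun _ _ => norm_nonneg _
  calc _ ≤ _ := h1
    _ ≤ (∑ i, ‖f i‖) * 1 := mul_le_mul_of_nonneg_left h3 h4
    _ = _ := mul_one _

theorem A_antitone {α : ℕ → ℝ} {N n n' : ℕ} (hα : ∀ j, N ≤ j → α j = 0) (hN : N ≤ n)
    (hn : n ≤ n') {t : ℝ} (ht : t ∈ A f e α n') : t ∈ A f e α n := by
  obtain ⟨m, a, hnm, ha, hnorm, rfl⟩ := ht
  refine ⟨m, a, hn.trans hnm, fun j hj => ha j (hj.trans_le hn), hnorm, ?_⟩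
  rw [← sum_Ico_consecutive _ hn hnm]
  have : ∑ j ∈ Ico n n', |a j| * g f e j = 0 := by
    refine sum_eq_zero fun j hj => ?_
    rw [mem_Ico] at hj
    rw [ha j hj.2, hα j (hN.trans hj.1)]
    simp
  rw [this, zero_add]


/-- the supports of almost extremal extensions can be chosen finite and arbitrarily far, with
nearly the same values of the functionals -/
theorem exists_pair (h : Unc e) {α : ℕ → ℝ} {N : ℕ} (hα : ∀ j, N ≤ j → α j = 0)
    (hnorm : ‖∑ j ∈ range N, α j • e j‖ ≤ 1) {η : ℝ} (hη : 0 < η) :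
    ∃ (G : ℝ) (n₁ : ℕ) (m₁ : ℕ) (n₂ : ℕ) (m₂ : ℕ) (a b : ℕ → ℝ), 0 ≤ G ∧ G ≤ ∑ i, ‖f i‖ ∧
      N ≤ n₁ ∧ n₁ ≤ m₁ ∧ m₁ ≤ n₂ ∧ n₂ ≤ m₂ ∧
      (∀ t ∈ A f e α n₁, t ≤ G + η) ∧
      (∀ j < n₁, a j = α j) ∧ ‖∑ j ∈ range m₁, a j • e j‖ ≤ 1 ∧
      G - η < ∑ j ∈ Ico n₁ m₁, |a j| * g f e j ∧
      (∀ j < n₂, b j = α j) ∧ ‖∑ j ∈ range m₂, b j • e j‖ ≤ 1 ∧
      G - η < ∑ j ∈ Ico n₂ m₂, |b j| * g f e j ∧
      ∀ i, |f i (∑ j ∈ Ico n₁ m₁, a j • e j) - f i (∑ j ∈ Ico n₂ m₂, b j • e j)| < 2 * η := by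
  classical
  have hbdd : ∀ n, BddAbove (A f e α n) := fun n => ⟨_, fun t ht => A_le f h ht⟩
  have hmem0 : ∀ k, (0 : ℝ) ∈ A f e α (N + k) := by
    intro k
    refine ⟨N + k, α, le_rfl, fun _ _ => rfl, ?_, by simp⟩
    have : ∑ j ∈ range (N + k), α j • e j = ∑ j ∈ range N, α j • e j := by
      symm
      apply sum_subset
      · intro j hj
        rw [mem_range] at hj ⊢
        omega
      · intro j _ hj
        rw [mem_range, not_lt] at hj
        rw [hα j hj, zero_smul]
    rw [this]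
    exact hnorm
  let T : ℕ → ℝ := fun k => sSup (A f e α (N + k))
  have hT0 : ∀ k, 0 ≤ T k := fun k => le_csSup (hbdd _) (hmem0 k)
  have hTbdd : BddBelow (Set.range T) := ⟨0, by rintro _ ⟨k, rfl⟩; exact hT0 k⟩
  let G : ℝ := ⨅ k, T k
  have hG0 : 0 ≤ G := le_ciInf hT0
  have hGle : ∀ k, G ≤ T k := fun k => ciInf_le hTbdd k
  obtain ⟨k₁, hk₁⟩ : ∃ k, T k < G + η := exists_lt_of_ciInf_lt (by linarith : G < G + η)
  have hex : ∀ k, ∃ (m : ℕ) (a : ℕ → ℝ), N + k ≤ m ∧ (∀ j < N + k, a j = α j) ∧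
      ‖∑ j ∈ range m, a j • e j‖ ≤ 1 ∧ G - η < ∑ j ∈ Ico (N + k) m, |a j| * g f e j := by
    intro k
    have h1 : G - η < T k := by linarith [hGle k]
    obtain ⟨t, ⟨m, a, h2, h3, h4, h5⟩, ht⟩ := exists_lt_of_lt_csSup ⟨0, hmem0 k⟩ h1
    exact ⟨m, a, h2, h3, h4, h5 ▸ ht⟩
  choose m a hm ha hna hga using hex
  let u : ℕ → (ι → ℝ) := fun k i => f i (∑ j ∈ Ico (N + k) (m k), a k j • e j)
  have hu : ∀ k, u k ∈ Metric.closedBall (0 : ι → ℝ) (∑ i, ‖f i‖) := by
    intro k
    rw [mem_closedBall_zero_iff]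
    refine (pi_norm_le_iff_of_nonneg (sum_nonneg fun _ _ => norm_nonneg _)).2 fun i => ?_
    have h2 : Ico (N + k) (m k) ⊆ range (m k) := by
      intro j hj
      rw [mem_Ico] at hj
      rw [mem_range]
      exact hj.2
    have h3 := (norm_proj_finset h (a k) h2).trans (hna k)
    calc ‖f i (∑ j ∈ Ico (N + k) (m k), a k j • e j)‖
        ≤ ‖f i‖ * ‖∑ j ∈ Ico (N + k) (m k), a k j • e j‖ := (f i).le_opNorm _
      _ ≤ ‖f i‖ * 1 := mul_le_mul_of_nonneg_left h3 (norm_nonneg _)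
      _ = ‖f i‖ := mul_one _
      _ ≤ ∑ i, ‖f i‖ := single_le_sum (f := fun i => ‖f i‖) (fun _ _ => norm_nonneg _)
          (mem_univ i)
  obtain ⟨v, -, φ, hφ, hlim⟩ := tendsto_subseq_of_bounded Metric.isBounded_closedBall hu
  obtain ⟨K, hK⟩ := (Metric.tendsto_atTop.1 hlim) η hη
  let K₁ := max K k₁
  let p := φ K₁
  have hp : k₁ ≤ p := (le_max_right K k₁).trans (hφ.id_le K₁)
  let K₂ := max K (m p)
  let q := φ K₂
  have hq : m p ≤ q := (le_max_right K (m p)).trans (hφ.id_le K₂)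
  refine ⟨G, N + p, m p, N + q, m q, a p, a q, hG0, ?_, by omega, hm p, by omega, hm q, ?_,
    ha p, hna p, hga p, ha q, hna q, hga q, ?_⟩
  · exact (hGle 0).trans (csSup_le ⟨0, hmem0 0⟩ fun t ht => A_le f h ht)
  · intro t ht
    have h1 : t ∈ A f e α (N + k₁) := A_antitone f hα (by omega) (by omega) ht
    exact ((le_csSup (hbdd _) h1).trans hk₁.le)
  · intro i
    have h1 := hK K₁ (le_max_left _ _)
    have h2 := hK K₂ (le_max_left _ _)
    have h3 : dist (u p i) (v i) < η := lt_of_le_of_lt (dist_le_pi_dist _ _ i) h1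
    have h4 : dist (u q i) (v i) < η := lt_of_le_of_lt (dist_le_pi_dist _ _ i) h2
    rw [Real.dist_eq] at h3 h4
    show |u p i - u q i| < 2 * η
    have h5 : u p i - u q i = (u p i - v i) - (u q i - v i) := by ring
    rw [h5]
    exact lt_of_le_of_lt (abs_sub _ _) (by linarith)


theorem exists_center (h : Unc e) {x₀ : X} (hx₀ : ‖x₀‖ ≤ 1) {ε : ℝ} (hε : 0 < ε) :
    ∃ (m : ℕ) (a : ℕ → ℝ) (δ : ℝ), 0 < δ ∧ ‖∑ j ∈ range m, a j • e j‖ ≤ 1 ∧
      ∀ y : X, ‖y‖ ≤ 1 → (∀ j < m, |co h y j - a j| < δ) → ∀ i, |f i y - f i x₀| < ε := by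
  classical
  set M : ℝ := ∑ i, ‖f i‖ with hMdef
  have hM : 0 ≤ M := sum_nonneg fun _ _ => norm_nonneg _
  have hfM : ∀ i (z : X), ‖z‖ ≤ 1 → |f i z| ≤ M := by
    intro i z hz
    calc |f i z| ≤ ‖f i‖ * ‖z‖ := (f i).le_opNorm z
      _ ≤ ‖f i‖ * 1 := mul_le_mul_of_nonneg_left hz (norm_nonneg _)
      _ = ‖f i‖ := mul_one _
      _ ≤ M := single_le_sum (f := fun i => ‖f i‖) (fun _ _ => norm_nonneg _) (mem_univ i)
  -- a point of finite support in the open ball
  set ρ : ℝ := min (1 / 2) (ε / (8 * (M + 1))) with hρdef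
  have hρ0 : 0 < ρ := lt_min (by norm_num) (by positivity)
  have hρ1 : ρ ≤ 1 / 2 := min_le_left _ _
  have hρM : ρ * M ≤ ε / 8 := by
    have h1 : ρ ≤ ε / (8 * (M + 1)) := min_le_right _ _
    calc ρ * M ≤ ε / (8 * (M + 1)) * M := mul_le_mul_of_nonneg_right h1 hM
      _ ≤ ε / (8 * (M + 1)) * (M + 1) := mul_le_mul_of_nonneg_left (by linarith) (by positivity)
      _ = ε / 8 := by field_simp
  obtain ⟨N, hN⟩ : ∃ N : ℕ, ∀ i, |f i (∑ j ∈ range N, co h x₀ j • e j) - f i x₀| < ε / 8 := by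
    have h1 : ∀ i, ∀ᶠ n : ℕ in atTop,
        |f i (∑ j ∈ range n, co h x₀ j • e j) - f i x₀| < ε / 8 := by
      intro i
      have h2 := ((f i).continuous.tendsto x₀).comp (co_hasSum h x₀).tendsto_sum_nat
      exact (Metric.tendsto_nhds.1 h2) (ε / 8) (by linarith)
    exact (eventually_all.2 h1).exists
  set S : X := ∑ j ∈ range N, co h x₀ j • e j with hS
  have hSn : ‖S‖ ≤ 1 := (norm_proj h x₀ _).trans hx₀
  let α : ℕ → ℝ := fun j => if j < N then (1 - ρ) * co h x₀ j else 0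
  have hα : ∀ j, N ≤ j → α j = 0 := fun j hj => if_neg (by omega)
  have hαS : ∑ j ∈ range N, α j • e j = (1 - ρ) • S := by
    rw [hS, smul_sum]
    refine sum_congr rfl fun j hj => ?_
    show (if j < N then (1 - ρ) * co h x₀ j else 0) • e j = _
    rw [if_pos (mem_range.1 hj), mul_smul]
  have hx1 : ‖(1 - ρ) • S‖ ≤ 1 - ρ := by
    rw [norm_smul, Real.norm_of_nonneg (by linarith)]
    calc (1 - ρ) * ‖S‖ ≤ (1 - ρ) * 1 := mul_le_mul_of_nonneg_left hSn (by linarith)
      _ = _ := mul_one _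
  have hfx1 : ∀ i, |f i ((1 - ρ) • S) - f i x₀| ≤ ε / 4 := by
    intro i
    have h1 : f i ((1 - ρ) • S) - f i x₀ = (f i S - f i x₀) - ρ * f i S := by
      rw [map_smul, smul_eq_mul]; ring
    have h2 : |ρ * f i S| ≤ ρ * M := by
      rw [abs_mul, abs_of_pos hρ0]
      exact mul_le_mul_of_nonneg_left (hfM i S hSn) hρ0.le
    rw [h1]
    calc _ ≤ |f i S - f i x₀| + |ρ * f i S| := abs_sub _ _
      _ ≤ ε / 8 + ε / 8 := add_le_add (hN i).le (h2.trans hρM)
      _ = ε / 4 := by ring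
  set η : ℝ := ε / 16 with hηdef
  have hη : 0 < η := by positivity
  obtain ⟨G, n₁, m₁, n₂, m₂, a, b, hG0, hGM, hNn, hnm, hmn, hnm2, hGA, haα, hanorm, haG, hbα,
    hbnorm, hbG, hab⟩ := exists_pair f h hα (by rw [hαS]; linarith) hη
  let c : ℕ → ℝ := fun j =>
    ((if j < m₁ then a j else 0) + (if j < n₂ then (1 : ℝ) else -1) * b j) / 2
  have hc1 : ∀ j < n₁, c j = α j := by
    intro j hj
    show ((if j < m₁ then a j else 0) + (if j < n₂ then (1 : ℝ) else -1) * b j) / 2 = α j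
    rw [if_pos (by omega), if_pos (by omega), haα j hj, hbα j (by omega)]
    ring
  have hc2 : ∀ j, n₁ ≤ j → j < m₁ → c j = a j / 2 := by
    intro j h1 h2
    show ((if j < m₁ then a j else 0) + (if j < n₂ then (1 : ℝ) else -1) * b j) / 2 = a j / 2
    rw [if_pos h2, if_pos (by omega), hbα j (by omega), hα j (by omega)]
    ring
  have hc3 : ∀ j, m₁ ≤ j → j < n₂ → c j = 0 := by
    intro j h1 h2
    show ((if j < m₁ then a j else 0) + (if j < n₂ then (1 : ℝ) else -1) * b j) / 2 = 0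
    rw [if_neg (by omega), if_pos h2, hbα j h2, hα j (by omega)]
    ring
  have hc4 : ∀ j, n₂ ≤ j → c j = - b j / 2 := by
    intro j h1
    show ((if j < m₁ then a j else 0) + (if j < n₂ then (1 : ℝ) else -1) * b j) / 2 = - b j / 2
    rw [if_neg (by omega), if_neg (by omega)]
    ring
  have hxn : ∑ j ∈ range n₁, α j • e j = (1 - ρ) • S := by
    rw [← hαS]
    symm
    apply sum_subset
    · intro j hj
      rw [mem_range] at hj ⊢
      omega
    · intro j _ hj
      rw [mem_range, not_lt] at hj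
      rw [hα j hj, zero_smul]
  have hcsum : ∑ j ∈ range m₂, c j • e j = (1 - ρ) • S +
      (1 / 2 : ℝ) • (∑ j ∈ Ico n₁ m₁, a j • e j - ∑ j ∈ Ico n₂ m₂, b j • e j) := by
    rw [range_eq_Ico, ← sum_Ico_consecutive _ (Nat.zero_le n₁) (by omega : n₁ ≤ m₂),
      ← sum_Ico_consecutive _ hnm (by omega : m₁ ≤ m₂), ← sum_Ico_consecutive _ hmn hnm2,
      ← hxn, range_eq_Ico, smul_sub, smul_sum, smul_sum]
    have e1 : ∑ j ∈ Ico 0 n₁, c j • e j = ∑ j ∈ Ico 0 n₁, α j • e j :=
      sum_congr rfl fun j hj => by rw [hc1 j (mem_Ico.1 hj).2]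
    have e2 : ∑ j ∈ Ico n₁ m₁, c j • e j = ∑ j ∈ Ico n₁ m₁, (1 / 2 : ℝ) • a j • e j :=
      sum_congr rfl fun j hj => by
        rw [hc2 j (mem_Ico.1 hj).1 (mem_Ico.1 hj).2, smul_smul]
        congr 1; ring
    have e3 : ∑ j ∈ Ico m₁ n₂, c j • e j = 0 :=
      sum_eq_zero fun j hj => by
        rw [hc3 j (mem_Ico.1 hj).1 (mem_Ico.1 hj).2, zero_smul]
    have e4 : ∑ j ∈ Ico n₂ m₂, c j • e j = - ∑ j ∈ Ico n₂ m₂, (1 / 2 : ℝ) • b j • e j := by
      rw [← sum_neg_distrib]
      refine sum_congr rfl fun j hj => ?_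
      rw [hc4 j (mem_Ico.1 hj).1, smul_smul, ← neg_smul]
      congr 1; ring
    rw [e1, e2, e3, e4, zero_add, sub_eq_add_neg]
  have hcnorm : ‖∑ j ∈ range m₂, c j • e j‖ ≤ 1 := by
    have h1 : ∑ j ∈ range m₂, c j • e j = (1 / 2 : ℝ) • (∑ j ∈ range m₁, a j • e j +
        ∑ j ∈ range m₂, ((if j < n₂ then (1 : ℝ) else -1) * b j) • e j) := by
      have h2 : ∑ j ∈ range m₁, a j • e j =
          ∑ j ∈ range m₂, (if j < m₁ then a j else 0) • e j := by
        rw [← sum_subset (show range m₁ ⊆ range m₂ from fun j hj => by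
          rw [mem_range] at hj ⊢; omega)]
        · refine sum_congr rfl fun j hj => ?_
          rw [if_pos (mem_range.1 hj)]
        · intro j _ hj
          rw [if_neg (fun hh => hj (mem_range.2 hh)), zero_smul]
      rw [h2, ← sum_add_distrib, smul_sum]
      refine sum_congr rfl fun j _ => ?_
      rw [← add_smul, smul_smul]
      congr 1
      show ((if j < m₁ then a j else 0) + (if j < n₂ then (1 : ℝ) else -1) * b j) / 2 = _
      ring
    have h3 := h.sign (range m₂) b (fun j => if j < n₂ then (1 : ℝ) else -1) (fun n => by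
      by_cases hn : n < n₂
      · left; simp [hn]
      · right; simp [hn])
    rw [h1, norm_smul, Real.norm_of_nonneg (by norm_num)]
    have h4 := norm_add_le (∑ j ∈ range m₁, a j • e j)
      (∑ j ∈ range m₂, ((if j < n₂ then (1 : ℝ) else -1) * b j) • e j)
    linarith
  have hcval : G - η < ∑ j ∈ Ico n₁ m₂, |c j| * g f e j := by
    rw [← sum_Ico_consecutive _ hnm (by omega : m₁ ≤ m₂), ← sum_Ico_consecutive _ hmn hnm2]
    have e2 : ∑ j ∈ Ico n₁ m₁, |c j| * g f e j = (∑ j ∈ Ico n₁ m₁, |a j| * g f e j) / 2 := by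
      rw [sum_div]
      refine sum_congr rfl fun j hj => ?_
      rw [hc2 j (mem_Ico.1 hj).1 (mem_Ico.1 hj).2, abs_div, abs_two]
      ring
    have e3 : 0 ≤ ∑ j ∈ Ico m₁ n₂, |c j| * g f e j :=
      sum_nonneg fun j _ => mul_nonneg (abs_nonneg _) (g_nonneg f j)
    have e4 : ∑ j ∈ Ico n₂ m₂, |c j| * g f e j = (∑ j ∈ Ico n₂ m₂, |b j| * g f e j) / 2 := by
      rw [sum_div]
      refine sum_congr rfl fun j hj => ?_
      rw [hc4 j (mem_Ico.1 hj).1, abs_div, abs_two, abs_neg]
      ring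
    rw [e2, e4]
    linarith
  have hcf : ∀ i, |f i (∑ j ∈ range m₂, c j • e j) - f i ((1 - ρ) • S)| ≤ η := by
    intro i
    have h1 : f i (∑ j ∈ range m₂, c j • e j) - f i ((1 - ρ) • S) =
        (f i (∑ j ∈ Ico n₁ m₁, a j • e j) - f i (∑ j ∈ Ico n₂ m₂, b j • e j)) / 2 := by
      rw [hcsum, map_add, map_smul (f i) (1 / 2 : ℝ), map_sub, smul_eq_mul]
      ring
    rw [h1, abs_div, abs_two]
    have := (hab i).le
    linarith
  -- the parameters
  set t : ℝ := min (1 / 2) (η / (2 * M + 1)) with htdef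
  have ht0 : 0 < t := lt_min (by norm_num) (by positivity)
  have ht1 : t ≤ 1 / 2 := min_le_left _ _
  have htM : t * (2 * M) ≤ η := by
    have h1 : t ≤ η / (2 * M + 1) := min_le_right _ _
    calc t * (2 * M) ≤ η / (2 * M + 1) * (2 * M) := mul_le_mul_of_nonneg_right h1 (by linarith)
      _ ≤ η / (2 * M + 1) * (2 * M + 1) := mul_le_mul_of_nonneg_left (by linarith) (by positivity)
      _ = η := by field_simp
  set s : ℝ := t * ρ with hsdef
  have hs0 : 0 < s := mul_pos ht0 hρ0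
  set D : ℝ := ∑ j ∈ range m₂, (‖e j‖ + g f e j) with hDdef
  have hD : 0 ≤ D := sum_nonneg fun j _ => add_nonneg (norm_nonneg _) (g_nonneg f j)
  set δ : ℝ := min s η / (1 + D) with hδdef
  have hδ0 : 0 < δ := div_pos (lt_min hs0 hη) (by linarith)
  have hδD : δ * D ≤ min s η := by
    calc δ * D ≤ δ * (1 + D) := mul_le_mul_of_nonneg_left (by linarith) hδ0.le
      _ = min s η := by rw [hδdef]; field_simp
  refine ⟨m₂, c, δ, hδ0, hcnorm, fun y hy hyc i => ?_⟩
  have hdiff : ∀ j ∈ range m₂, |co h y j - c j| ≤ δ := fun j hj => (hyc j (mem_range.1 hj)).le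
  -- the tails of `y` are small
  have htail : ∀ m', m₂ ≤ m' → ∑ j ∈ Ico m₂ m', |co h y j| * g f e j ≤ 3 * η := by
    intro m' hm'
    set W : ℝ := ∑ j ∈ Ico m₂ m', |co h y j| * g f e j with hW
    have hWM : W ≤ M := by
      have h1 := sum_g_le f h (co h y) (Ico m₂ m')
      have h2 := (norm_proj h y (Ico m₂ m')).trans hy
      calc W ≤ _ := h1
        _ ≤ M * 1 := mul_le_mul_of_nonneg_left h2 hM
        _ = M := mul_one _
    let z : ℕ → ℝ := fun j => if j < m₂ then c j else co h y j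
    let d : ℕ → ℝ := fun j => if j < n₁ then α j else (1 - t) * z j
    have hz : ‖∑ j ∈ range m', z j • e j‖ ≤ 1 + s := by
      have h1 : ∑ j ∈ range m', z j • e j = ∑ j ∈ range m', co h y j • e j +
          ∑ j ∈ range m₂, (c j - co h y j) • e j := by
        have h2 : ∑ j ∈ range m₂, (c j - co h y j) • e j =
            ∑ j ∈ range m', (if j < m₂ then c j - co h y j else 0) • e j := by
          rw [← sum_subset (show range m₂ ⊆ range m' from fun j hj => by
            rw [mem_range] at hj ⊢; omega)]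
          · refine sum_congr rfl fun j hj => ?_
            rw [if_pos (mem_range.1 hj)]
          · intro j _ hj
            rw [if_neg (fun hh => hj (mem_range.2 hh)), zero_smul]
        rw [h2, ← sum_add_distrib]
        refine sum_congr rfl fun j _ => ?_
        rw [← add_smul]
        congr 1
        show (if j < m₂ then c j else co h y j) = _
        split_ifs <;> ring
      rw [h1]
      refine (norm_add_le _ _).trans (add_le_add ((norm_proj h y _).trans hy) ?_)
      calc ‖∑ j ∈ range m₂, (c j - co h y j) • e j‖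
          ≤ ∑ j ∈ range m₂, ‖(c j - co h y j) • e j‖ := norm_sum_le _ _
        _ ≤ ∑ j ∈ range m₂, δ * (‖e j‖ + g f e j) := by
            refine sum_le_sum fun j hj => ?_
            rw [norm_smul, Real.norm_eq_abs, abs_sub_comm]
            exact mul_le_mul (hdiff j hj) (by linarith [g_nonneg f (e := e) j]) (norm_nonneg _)
              hδ0.le
        _ = δ * D := by rw [← mul_sum]
        _ ≤ s := hδD.trans (min_le_left _ _)
    have hd : ∑ j ∈ range m', d j • e j = (1 - t) • (∑ j ∈ range m', z j • e j) +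
        t • ((1 - ρ) • S) := by
      have h2 : (1 - ρ) • S = ∑ j ∈ range m', (if j < n₁ then α j else 0) • e j := by
        rw [← hxn, ← sum_subset (show range n₁ ⊆ range m' from fun j hj => by
          rw [mem_range] at hj ⊢; omega)]
        · refine sum_congr rfl fun j hj => ?_
          rw [if_pos (mem_range.1 hj)]
        · intro j _ hj
          rw [if_neg (fun hh => hj (mem_range.2 hh)), zero_smul]
      rw [h2, smul_sum, smul_sum, ← sum_add_distrib]
      refine sum_congr rfl fun j _ => ?_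
      rw [smul_smul, smul_smul, ← add_smul]
      congr 1
      show (if j < n₁ then α j else (1 - t) * z j) = _
      by_cases hj : j < n₁
      · rw [if_pos hj, if_pos hj]
        have : z j = α j := by
          show (if j < m₂ then c j else co h y j) = α j
          rw [if_pos (by omega), hc1 j hj]
        rw [this]; ring
      · rw [if_neg hj, if_neg hj]; ring
    have hdn : ‖∑ j ∈ range m', d j • e j‖ ≤ 1 := by
      rw [hd]
      refine (norm_add_le _ _).trans ?_
      rw [norm_smul, norm_smul, Real.norm_of_nonneg (by linarith), Real.norm_of_nonneg ht0.le]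
      have h1 : (1 - t) * ‖∑ j ∈ range m', z j • e j‖ ≤ (1 - t) * (1 + s) :=
        mul_le_mul_of_nonneg_left hz (by linarith)
      have h2 : t * ‖(1 - ρ) • S‖ ≤ t * (1 - ρ) := mul_le_mul_of_nonneg_left hx1 ht0.le
      have h3 : 0 ≤ t * s := mul_nonneg ht0.le hs0.le
      have h4 : s = t * ρ := hsdef
      nlinarith
    have hval : ∑ j ∈ Ico n₁ m', |d j| * g f e j =
        (1 - t) * (∑ j ∈ Ico n₁ m₂, |c j| * g f e j + W) := by
      rw [← sum_Ico_consecutive _ (by omega : n₁ ≤ m₂) hm', mul_add, mul_sum, hW, mul_sum]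
      congr 1
      · refine sum_congr rfl fun j hj => ?_
        have h1 : d j = (1 - t) * c j := by
          show (if j < n₁ then α j else (1 - t) * (if j < m₂ then c j else co h y j)) = _
          rw [if_neg (by have := (mem_Ico.1 hj).1; omega), if_pos (mem_Ico.1 hj).2]
        rw [h1, abs_mul, abs_of_nonneg (by linarith : (0 : ℝ) ≤ 1 - t)]
        ring
      · refine sum_congr rfl fun j hj => ?_
        have h1 : d j = (1 - t) * co h y j := by
          show (if j < n₁ then α j else (1 - t) * (if j < m₂ then c j else co h y j)) = _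
          rw [if_neg (by have := (mem_Ico.1 hj).1; omega),
            if_neg (by have := (mem_Ico.1 hj).1; omega)]
        rw [h1, abs_mul, abs_of_nonneg (by linarith : (0 : ℝ) ≤ 1 - t)]
        ring
    have hmem : (1 - t) * (∑ j ∈ Ico n₁ m₂, |c j| * g f e j + W) ∈ A f e α n₁ := by
      refine ⟨m', d, by omega, fun j hj => ?_, hdn, hval.symm⟩
      show (if j < n₁ then α j else (1 - t) * z j) = α j
      rw [if_pos hj]
    have hle := hGA _ hmem
    have h5 : (1 - t) * (G - η + W) ≤ G + η := by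
      refine le_trans (mul_le_mul_of_nonneg_left ?_ (by linarith)) hle
      linarith
    have h6 : t * (G - η + W) ≤ t * (2 * M) := mul_le_mul_of_nonneg_left (by linarith) ht0.le
    nlinarith
  -- hence `f i y` is close to the value at the centre
  have hfin : |f i y - f i (∑ j ∈ range m₂, c j • e j)| ≤ 4 * η := by
    have h1 : Tendsto (fun m' : ℕ => |f i (∑ j ∈ range m', co h y j • e j) -
        f i (∑ j ∈ range m₂, c j • e j)|) atTop
        (𝓝 |f i y - f i (∑ j ∈ range m₂, c j • e j)|) := by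
      have h2 := ((f i).continuous.tendsto y).comp (co_hasSum h y).tendsto_sum_nat
      exact (h2.sub_const _).abs
    refine le_of_tendsto h1 ?_
    filter_upwards [eventually_ge_atTop m₂] with m' hm'
    have h3 : f i (∑ j ∈ range m', co h y j • e j) - f i (∑ j ∈ range m₂, c j • e j) =
        ∑ j ∈ range m₂, (co h y j - c j) * f i (e j) +
          ∑ j ∈ Ico m₂ m', co h y j * f i (e j) := by
      simp only [range_eq_Ico]
      rw [← sum_Ico_consecutive _ (Nat.zero_le m₂) hm', map_add, map_sum, map_sum, map_sum]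
      simp only [map_smul, smul_eq_mul, sub_mul, sum_sub_distrib]
      ring
    rw [h3]
    have h4 : |∑ j ∈ range m₂, (co h y j - c j) * f i (e j)| ≤ η := by
      calc |∑ j ∈ range m₂, (co h y j - c j) * f i (e j)|
          ≤ ∑ j ∈ range m₂, |(co h y j - c j) * f i (e j)| := abs_sum_le_sum_abs _ _
        _ ≤ ∑ j ∈ range m₂, δ * (‖e j‖ + g f e j) := by
            refine sum_le_sum fun j hj => ?_
            rw [abs_mul]
            exact mul_le_mul (hdiff j hj) (by linarith [abs_le_g f (e := e) i j, norm_nonneg (e j)])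
              (abs_nonneg _) hδ0.le
        _ = δ * D := by rw [← mul_sum]
        _ ≤ η := hδD.trans (min_le_right _ _)
    have h5 : |∑ j ∈ Ico m₂ m', co h y j * f i (e j)| ≤ 3 * η := by
      calc |∑ j ∈ Ico m₂ m', co h y j * f i (e j)|
          ≤ ∑ j ∈ Ico m₂ m', |co h y j * f i (e j)| := abs_sum_le_sum_abs _ _
        _ ≤ ∑ j ∈ Ico m₂ m', |co h y j| * g f e j := by
            refine sum_le_sum fun j _ => ?_
            rw [abs_mul]
            exact mul_le_mul_of_nonneg_left (abs_le_g f i j) (abs_nonneg _)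
        _ ≤ 3 * η := htail m' hm'
    refine (abs_add_le _ _).trans ?_
    linarith
  have h7 : f i y - f i x₀ = (f i y - f i (∑ j ∈ range m₂, c j • e j)) +
      (f i (∑ j ∈ range m₂, c j • e j) - f i ((1 - ρ) • S)) +
      (f i ((1 - ρ) • S) - f i x₀) := by ring
  rw [h7]
  have h8 := abs_add_three (f i y - f i (∑ j ∈ range m₂, c j • e j))
    (f i (∑ j ∈ range m₂, c j • e j) - f i ((1 - ρ) • S)) (f i ((1 - ρ) • S) - f i x₀)
  have h9 := hcf i
  have h10 := hfx1 i
  linarith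

end Main

end Pool.Agent.X210.PiBase
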