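import Mathlib

set_option autoImplicit false

/-!
# Unitary Cayley graphs and Jacobsthal's function

For `n = 30 * ∏ P` with `P` a set of `8 q + 3` large primes, the total domination number of the
unitary Cayley graph of `ZMod n` is at most `30 q + 16`, while Jacobsthal's function of `n` is at
least `30 q + 18`.
-/

namespace Pool.Agent.X210.UCay

/-- the unitary Cayley graph of `ℤ / n` -/
def X (n : ℕ) : SimpleGraph (ZMod n) where
  Adj x y := x ≠ y ∧ IsUnit (x - y)
  symm := ⟨fun x y h => ⟨h.1.symm, by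
    have := h.2.neg
    rwa [neg_sub] at this⟩⟩
  loopless := ⟨fun _ h => h.1 rfl⟩

/-- the domination number of a graph -/
noncomputable def domNum {V : Type} (G : SimpleGraph V) : ℕ :=
  sInf {m | ∃ D : Finset V, D.card = m ∧ ∀ v, ∃ d ∈ D, v = d ∨ G.Adj v d}

/-- the total domination number of a graph -/
noncomputable def totalDomNum {V : Type} (G : SimpleGraph V) : ℕ :=
  sInf {m | ∃ D : Finset V, D.card = m ∧ ∀ v, ∃ d ∈ D, G.Adj v d}

/-- Jacobsthal's function: the least `m ≥ 1` such that any `m` consecutive integers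
`a, a + 1, ..., a + m - 1` contain one that is coprime to `n` -/
noncomputable def jacobsthal (n : ℕ) : ℕ :=
  sInf {m | 0 < m ∧ ∀ a : ℤ, ∃ i : ℕ, i < m ∧ IsCoprime (a + i) (n : ℤ)}

theorem domNum_le {V : Type} (G : SimpleGraph V) {D : Finset V}
    (h : ∀ v, ∃ d ∈ D, G.Adj v d) : domNum G ≤ D.card :=
  Nat.sInf_le ⟨D, rfl, fun v => by
    obtain ⟨d, hd, hv⟩ := h v
    exact ⟨d, hd, Or.inr hv⟩⟩

theorem totalDomNum_le {V : Type} (G : SimpleGraph V) {D : Finset V}
    (h : ∀ v, ∃ d ∈ D, G.Adj v d) : totalDomNum G ≤ D.card :=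
  Nat.sInf_le ⟨D, rfl, h⟩

theorem le_jacobsthal {n m : ℕ} (hn : 0 < n) (a : ℤ)
    (h : ∀ i : ℕ, i < m → ¬ IsCoprime (a + i) (n : ℤ)) : m + 1 ≤ jacobsthal n := by
  refine le_csInf ⟨n, hn, fun b => ?_⟩ ?_
  · refine ⟨((1 - b) % n).toNat, ?_, ?_⟩
    · have h1 := Int.emod_lt_of_pos (1 - b) (show (0 : ℤ) < n by exact_mod_cast hn)
      have h2 := Int.emod_nonneg (1 - b) (show (n : ℤ) ≠ 0 by exact_mod_cast hn.ne')
      omega
    · have h2 := Int.emod_nonneg (1 - b) (show (n : ℤ) ≠ 0 by exact_mod_cast hn.ne')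
      rw [Int.toNat_of_nonneg h2]
      refine ⟨1, (1 - b) / n, ?_⟩
      have := Int.emod_add_mul_ediv (1 - b) n
      linarith
  · rintro k ⟨hk, hk2⟩
    by_contra hlt
    obtain ⟨i, hi, hc⟩ := hk2 a
    exact h i (by omega) hc

/-- the residues -/
def R : Finset ℕ := (Finset.range 30).filter fun r => r % 15 ∈ ({0, 1, 6, 7, 8, 10, 12, 14} : Finset ℕ)

/-- the index set of the dominating set: the number `30 i + r` is encoded by `(i, r)` -/
def I (q : ℕ) : Finset (ℕ × ℕ) := (Finset.range q ×ˢ Finset.range 30) ∪ ({q} ×ˢ R)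

theorem R_lt {r : ℕ} (h : r ∈ R) : r < 30 := by
  have := (Finset.mem_filter.1 h).1
  exact Finset.mem_range.1 this

theorem I_card (q : ℕ) : (I q).card ≤ 30 * q + 16 := by
  refine (Finset.card_union_le _ _).trans ?_
  rw [Finset.card_product, Finset.card_product, Finset.card_range, Finset.card_range,
    Finset.card_singleton]
  have : R.card = 16 := by decide
  rw [this]
  omega

theorem I_bound {q : ℕ} {x : ℕ × ℕ} (h : x ∈ I q) : x.1 ≤ q ∧ x.2 < 30 := by
  rcases Finset.mem_union.1 h with h | h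
  · rw [Finset.mem_product, Finset.mem_range, Finset.mem_range] at h
    exact ⟨h.1.le, h.2⟩
  · rw [Finset.mem_product, Finset.mem_singleton] at h
    exact ⟨h.1.le, R_lt h.2⟩

/-- the good residues for `v` -/
def G (v : ℕ) (S : Finset ℕ) : Finset ℕ := S.filter fun r => Nat.Coprime (v + 30 - r) 30

theorem G_range : ∀ v < 30, (G v (Finset.range 30)).card = 8 := by decide

theorem G_R : ∀ v < 30, 4 ≤ (G v R).card := by decide

theorem coprime_iff {V : ℤ} {v i r : ℕ} (hv : V % 30 = v) (hr : r < 30) :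
    IsCoprime (V - (30 * i + r : ℕ)) 30 ↔ Nat.Coprime (v + 30 - r) 30 := by
  rw [← Nat.isCoprime_iff_coprime]
  have h1 : (V - (30 * i + r : ℕ) : ℤ) = ((v + 30 - r : ℕ) : ℤ) + 30 * (V / 30 - i - 1) := by
    have := Int.emod_add_mul_ediv V 30
    push_cast [show r ≤ v + 30 by omega]
    rw [← hv]
    linarith
  rw [h1]
  exact IsCoprime.add_mul_left_left_iff

theorem total {q : ℕ} {P : Finset ℕ} (hP : ∀ p ∈ P, p.Prime ∧ 30 * (q + 1) ≤ p)
    (hcard : P.card ≤ 8 * q + 3) (V : ℤ) :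
    ∃ x ∈ I q, IsCoprime (V - (30 * x.1 + x.2 : ℕ)) ((30 * ∏ p ∈ P, p : ℕ) : ℤ) := by
  by_contra hcon
  push Not at hcon
  obtain ⟨v, hv⟩ : ∃ v : ℕ, V % 30 = v :=
    ⟨(V % 30).toNat, (Int.toNat_of_nonneg (Int.emod_nonneg _ (by norm_num))).symm⟩
  have hv30 : v < 30 := by
    have := Int.emod_lt_of_pos V (show (0 : ℤ) < 30 by norm_num)
    omega
  let J : Finset (ℕ × ℕ) := (Finset.range q ×ˢ G v (Finset.range 30)) ∪ ({q} ×ˢ G v R)
  have hJcard : 8 * q + 4 ≤ J.card := by
    rw [Finset.card_union_of_disjoint, Finset.card_product, Finset.card_product,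
      Finset.card_range, Finset.card_singleton, G_range v hv30]
    · have := G_R v hv30
      omega
    · rw [Finset.disjoint_left]
      rintro x hx hx'
      rw [Finset.mem_product, Finset.mem_range] at hx
      rw [Finset.mem_product, Finset.mem_singleton] at hx'
      omega
  have hJ : ∀ x ∈ J, x ∈ I q ∧ Nat.Coprime (v + 30 - x.2) 30 := by
    intro x hx
    rcases Finset.mem_union.1 hx with h | h
    · rw [Finset.mem_product] at h
      exact ⟨Finset.mem_union_left _ (Finset.mem_product.2 ⟨h.1, (Finset.mem_filter.1 h.2).1⟩),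
        (Finset.mem_filter.1 h.2).2⟩
    · rw [Finset.mem_product] at h
      exact ⟨Finset.mem_union_right _ (Finset.mem_product.2 ⟨h.1, (Finset.mem_filter.1 h.2).1⟩),
        (Finset.mem_filter.1 h.2).2⟩
  have hdiv : ∀ x ∈ J, ∃ p ∈ P, (p : ℤ) ∣ V - (30 * x.1 + x.2 : ℕ) := by
    intro x hx
    obtain ⟨hxI, hx2⟩ := hJ x hx
    have h1 : IsCoprime (V - (30 * x.1 + x.2 : ℕ)) 30 :=
      (coprime_iff hv (I_bound hxI).2).2 hx2
    by_contra hno
    push Not at hno
    apply hcon x hxI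
    rw [Nat.cast_mul, Nat.cast_prod]
    refine IsCoprime.mul_right h1 (IsCoprime.prod_right fun p hp => ?_)
    have hprime : Prime (p : ℤ) := Nat.prime_iff_prime_int.1 (hP p hp).1
    exact ((Prime.coprime_iff_not_dvd hprime).2 (hno p hp)).symm
  choose! f hf1 hf2 using hdiv
  have hinj : Set.InjOn f J := by
    intro x hx y hy hxy
    have h1 := hf2 x hx
    have h2 := hf2 y hy
    rw [← hxy] at h2
    have h3 := dvd_sub h2 h1
    obtain ⟨hx1, hx2⟩ := I_bound (hJ x hx).1
    obtain ⟨hy1, hy2⟩ := I_bound (hJ y hy).1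
    have h4 : 30 * (q + 1) ≤ f x := (hP _ (hf1 x hx)).2
    have h5 : (V - (30 * y.1 + y.2 : ℕ)) - (V - (30 * x.1 + x.2 : ℕ)) = 0 := by
      apply Int.eq_zero_of_abs_lt_dvd h3
      rw [abs_lt]
      push_cast
      constructor <;> nlinarith
    have h6 : 30 * x.1 + x.2 = 30 * y.1 + y.2 := by
      have : ((30 * x.1 + x.2 : ℕ) : ℤ) = ((30 * y.1 + y.2 : ℕ) : ℤ) := by linarith
      exact_mod_cast this
    exact Prod.ext (by omega) (by omega)
  have := Finset.card_le_card_of_injOn f (fun x hx => hf1 x hx) hinj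
  omega

/-- the upper bound for the total domination number -/
theorem exists_total {q : ℕ} {P : Finset ℕ} (hP : ∀ p ∈ P, p.Prime ∧ 30 * (q + 1) ≤ p)
    (hcard : P.card ≤ 8 * q + 3) :
    ∃ D : Finset (ZMod (30 * ∏ p ∈ P, p)), D.card ≤ 30 * q + 16 ∧
      ∀ v, ∃ d ∈ D, (X (30 * ∏ p ∈ P, p)).Adj v d := by
  classical
  refine ⟨(I q).image fun x => ((30 * x.1 + x.2 : ℕ) : ZMod (30 * ∏ p ∈ P, p)),
    Finset.card_image_le.trans (I_card q), fun v => ?_⟩
  have hN : 1 < 30 * ∏ p ∈ P, p := by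
    have : 0 < ∏ p ∈ P, p := Finset.prod_pos fun p hp => (hP p hp).1.pos
    omega
  haveI : Fact (1 < 30 * ∏ p ∈ P, p) := ⟨hN⟩
  obtain ⟨V, rfl⟩ := ZMod.intCast_surjective v
  obtain ⟨x, hx, hc⟩ := total hP hcard V
  have hu : IsUnit (((V - (30 * x.1 + x.2 : ℕ) : ℤ)) : ZMod (30 * ∏ p ∈ P, p)) :=
    (ZMod.coe_int_isUnit_iff_isCoprime _ _).2 hc.symm
  rw [Int.cast_sub, Int.cast_natCast] at hu
  refine ⟨_, Finset.mem_image_of_mem _ hx, ?_, hu⟩
  intro heq
  rw [heq, sub_self] at hu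
  exact not_isUnit_zero hu

theorem window : ((Finset.range 17).filter fun r => Nat.Coprime (20 + r) 30).card = 3 := by decide

theorem window30 : ((Finset.range 30).filter fun r => Nat.Coprime (20 + r) 30).card = 8 := by decide

/-- the lower bound for Jacobsthal's function -/
theorem jac {q : ℕ} {P : Finset ℕ} (hP : ∀ p ∈ P, p.Prime ∧ 30 * (q + 1) ≤ p)
    (hcard : 8 * q + 3 ≤ P.card) :
    30 * q + 18 ≤ jacobsthal (30 * ∏ p ∈ P, p) := by
  classical
  have hpos : 0 < ∏ p ∈ P, p := Finset.prod_pos fun p hp => (hP p hp).1.pos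
  let F : Finset ℕ := (Finset.range (30 * q + 17)).filter fun j => Nat.Coprime (20 + j) 30
  have hF : F.card ≤ 8 * q + 3 := by
    let K : Finset (ℕ × ℕ) :=
      (Finset.range q ×ˢ ((Finset.range 30).filter fun r => Nat.Coprime (20 + r) 30)) ∪
        ({q} ×ˢ ((Finset.range 17).filter fun r => Nat.Coprime (20 + r) 30))
    have hK : K.card ≤ 8 * q + 3 := by
      refine (Finset.card_union_le _ _).trans ?_
      rw [Finset.card_product, Finset.card_product, Finset.card_range, Finset.card_singleton,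
        window, window30]
      omega
    refine (Finset.card_le_card_of_injOn (fun j => (j / 30, j % 30)) (fun j hj => ?_) ?_).trans hK
    · obtain ⟨hj1, hj2⟩ := Finset.mem_filter.1 hj
      rw [Finset.mem_range] at hj1
      have hc : Nat.Coprime (20 + j % 30) 30 := by
        have h1 : 20 + j = 20 + j % 30 + 30 * (j / 30) := by omega
        rw [h1] at hj2
        exact (Nat.coprime_add_mul_left_left _ _ _).1 hj2
      by_cases hlt : j / 30 < q
      · apply Finset.mem_coe.2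
        apply Finset.mem_union_left
        rw [Finset.mem_product, Finset.mem_range, Finset.mem_filter, Finset.mem_range]
        exact ⟨hlt, Nat.mod_lt _ (by norm_num), hc⟩
      · apply Finset.mem_coe.2
        apply Finset.mem_union_right
        rw [Finset.mem_product, Finset.mem_singleton, Finset.mem_filter, Finset.mem_range]
        refine ⟨by show j / 30 = q; omega, by show j % 30 < 17; omega, hc⟩
    · intro a _ b _ hab
      have h1 : a / 30 = b / 30 := congrArg Prod.fst hab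
      have h2 : a % 30 = b % 30 := congrArg Prod.snd hab
      omega
  obtain ⟨e⟩ : Nonempty (F ↪ P) :=
    Function.Embedding.nonempty_of_card_le (by
      rw [Fintype.card_coe, Fintype.card_coe]
      exact hF.trans hcard)
  -- the residues modulo the primes
  let t : ℕ → ℕ := fun p => if h : ∃ j : F, (e j : ℕ) = p then (h.choose : ℕ) * (p - 1) else 0
  have ht : ∀ j : F, t (e j) = (j : ℕ) * ((e j : ℕ) - 1) := by
    intro j
    have h : ∃ j' : F, (e j' : ℕ) = (e j : ℕ) := ⟨j, rfl⟩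
    show (if h : ∃ j' : F, (e j' : ℕ) = (e j : ℕ) then (h.choose : ℕ) * ((e j : ℕ) - 1) else 0) = _
    rw [dif_pos h]
    have h2 : h.choose = j := e.injective (Subtype.ext h.choose_spec)
    rw [h2]
  obtain ⟨k, hk⟩ := Nat.chineseRemainderOfFinset t id P (fun p hp => (hP p hp).1.ne_zero)
    (fun p hp r hr hpr => (Nat.coprime_primes (hP p hp).1 (hP r hr).1).2 hpr)
  have hco : Nat.Coprime 30 (∏ p ∈ P, p) := by
    refine Nat.Coprime.prod_right fun p hp => ?_
    obtain ⟨hp1, hp2⟩ := hP p hp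
    refine (Nat.Coprime.symm ((Nat.Prime.coprime_iff_not_dvd hp1).2 fun hd => ?_))
    have := Nat.le_of_dvd (by norm_num) hd
    have hne : p ≠ 30 := by rintro rfl; norm_num at hp1
    omega
  obtain ⟨a, ha1, ha2⟩ := Nat.chineseRemainder hco 20 k
  refine le_jacobsthal (by positivity) (a : ℤ) fun i hi hc => ?_
  have hc' : Nat.Coprime (a + i) (30 * ∏ p ∈ P, p) := by
    rw [← Nat.isCoprime_iff_coprime]
    push_cast at hc ⊢
    exact hc
  by_cases hi30 : Nat.Coprime (20 + i) 30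
  · have hiF : i ∈ F := Finset.mem_filter.2 ⟨Finset.mem_range.2 hi, hi30⟩
    let j : F := ⟨i, hiF⟩
    obtain ⟨hp1, hp2⟩ := hP (e j) (e j).2
    have h1 : a ≡ t (e j) [MOD (e j : ℕ)] := by
      have h2 : a ≡ k [MOD (e j : ℕ)] := ha2.of_dvd (Finset.dvd_prod_of_mem (fun p : ℕ => p) (e j).2)
      exact h2.trans (hk _ (e j).2)
    rw [ht j] at h1
    have h3 : (e j : ℕ) ∣ a + i := by
      have h4 : a + i ≡ i * ((e j : ℕ) - 1) + i [MOD (e j : ℕ)] := h1.add_right i
      have h5 : i * ((e j : ℕ) - 1) + i = i * (e j : ℕ) := by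
        obtain ⟨m, hm⟩ : ∃ m, (e j : ℕ) = m + 1 := ⟨(e j : ℕ) - 1, by have := hp1.pos; omega⟩
        rw [hm, Nat.add_sub_cancel]
        ring
      rw [h5] at h4
      exact (Nat.modEq_zero_iff_dvd).1 (h4.trans ((Nat.modEq_zero_iff_dvd).2 (dvd_mul_left _ _)))
    have h4 : (e j : ℕ) ∣ 30 * ∏ p ∈ P, p :=
      Dvd.dvd.mul_left (Finset.dvd_prod_of_mem _ (e j).2) 30
    have h5 := Nat.dvd_gcd h3 h4
    rw [hc'.gcd_eq_one] at h5
    exact hp1.one_lt.ne' (Nat.dvd_one.1 h5)
  · apply hi30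
    have h1 : Nat.Coprime (a + i) 30 := hc'.coprime_mul_right_right
    have h2 : (a + i) % 30 = (20 + i) % 30 := ha1.add_right i
    have h3 : Nat.gcd (20 + i) 30 = Nat.gcd (a + i) 30 := by
      rw [Nat.gcd_comm (20 + i), Nat.gcd_comm (a + i), Nat.gcd_rec 30, Nat.gcd_rec 30, h2]
    exact h3.trans h1

/-- For every `k` there is `n` with at least `k` prime factors such that the total domination
number of the unitary Cayley graph is at most `g(n) - 2`. -/
theorem main (k : ℕ) : ∃ n : ℕ, 2 ≤ n ∧ k ≤ n.primeFactors.card ∧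
    ∃ D : Finset (ZMod n), D.card + 2 ≤ jacobsthal n ∧ ∀ v, ∃ d ∈ D, (X n).Adj v d := by
  have hinf : {p : ℕ | p.Prime ∧ 30 * (k + 1) ≤ p}.Infinite := by
    have h1 : {p : ℕ | p.Prime ∧ 30 * (k + 1) ≤ p} =
        {p : ℕ | p.Prime} \ (Set.Iio (30 * (k + 1))) := by
      ext p
      simp
    rw [h1]
    exact Nat.infinite_setOfPred_prime.sdiff (Set.finite_Iio _)
  obtain ⟨P, hPsub, hPcard⟩ := hinf.exists_subset_card_eq (8 * k + 3)
  have hP : ∀ p ∈ P, p.Prime ∧ 30 * (k + 1) ≤ p := fun p hp => hPsub hp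
  have hpos : 0 < ∏ p ∈ P, p := Finset.prod_pos fun p hp => (hP p hp).1.pos
  refine ⟨30 * ∏ p ∈ P, p, by omega, ?_, ?_⟩
  · have h1 : P ⊆ (30 * ∏ p ∈ P, p).primeFactors := by
      intro p hp
      rw [Nat.mem_primeFactors]
      exact ⟨(hP p hp).1, Dvd.dvd.mul_left (Finset.dvd_prod_of_mem _ hp) 30, by positivity⟩
    have := Finset.card_le_card h1
    omega
  · obtain ⟨D, hD, hD2⟩ := exists_total hP hPcard.le
    have := jac hP hPcard.ge
    exact ⟨D, by omega, hD2⟩

end Pool.Agent.X210.UCay
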