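import Pool.Agent.X210.UCay

set_option autoImplicit false

/-!
# The difference between Jacobsthal's function and the total domination number of unitary Cayley
graphs is unbounded
-/

namespace Pool.Agent.X210.UCay2

open Pool.Agent.X210.UCay Finset

/-! ### Many primes in some short interval -/

noncomputable def S (N : ℕ) : ℝ := ∑ p ∈ (range (N + 1)).filter Nat.Prime, (1 : ℝ) / p

lemma many_primes (k X0 : ℕ) : ∃ x, X0 ≤ x ∧
    k ≤ ((Ioc x (11 * x / 10)).filter Nat.Prime).card := by
  by_contra hcon
  push Not at hcon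
  set X1 : ℕ := 2 * X0 + 200 with hX1
  have hS : ∀ N, 0 ≤ S N := fun N => sum_nonneg fun p _ => by positivity
  have hmono : ∀ M N, M ≤ N → S M ≤ S N := by
    intro M N h
    apply sum_le_sum_of_subset_of_nonneg
    · apply filter_subset_filter
      apply range_subset_range.2; omega
    · intro p _ _; positivity
  have key : ∀ N, X0 ≤ N → 1 ≤ N → S N + 12 * k / N ≤ S X1 + 12 * k := by
    intro N
    induction N using Nat.strong_induction_on with
    | _ N ih =>
      intro hN hN1
      by_cases hle : N ≤ X1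
      · have h1 := hmono N X1 hle
        have h2 : (12 * k / N : ℝ) ≤ 12 * k := by
          apply div_le_self (by positivity)
          exact_mod_cast hN1
        linarith
      · push Not at hle
        set x : ℕ := (10 * N + 10) / 11 with hx
        have hx1 : X0 ≤ x := by omega
        have hx2 : x < N := by omega
        have hx3 : N ≤ 11 * x / 10 := by omega
        have hx4 : 1 ≤ x := by omega
        have h1 := ih x hx2 hx1 hx4
        have h2 : S N ≤ S x + k / x := by
          have e : (range (N + 1)).filter Nat.Prime =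
              (range (x + 1)).filter Nat.Prime ∪ (Ioc x N).filter Nat.Prime := by
            rw [← filter_union]
            congr 1
            ext y; simp only [mem_union, mem_range, mem_Ioc]; omega
          rw [S, e, sum_union]
          · apply add_le_add le_rfl
            calc ∑ p ∈ (Ioc x N).filter Nat.Prime, (1 : ℝ) / p
                ≤ ∑ p ∈ (Ioc x N).filter Nat.Prime, (1 : ℝ) / x := by
                  apply sum_le_sum
                  intro p hp
                  rw [mem_filter, mem_Ioc] at hp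
                  apply one_div_le_one_div_of_le
                  · exact_mod_cast hx4
                  · exact_mod_cast hp.1.1.le
              _ = ((Ioc x N).filter Nat.Prime).card * ((1 : ℝ) / x) := by
                  rw [sum_const, nsmul_eq_mul]
              _ ≤ k * (1 / x) := by
                  apply mul_le_mul_of_nonneg_right _ (by positivity)
                  have h3 := hcon x hx1
                  have h4 : ((Ioc x N).filter Nat.Prime).card ≤
                      ((Ioc x (11 * x / 10)).filter Nat.Prime).card := by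
                    apply card_le_card
                    apply filter_subset_filter
                    apply Ioc_subset_Ioc_right hx3
                  exact_mod_cast (h4.trans h3.le)
              _ = k / x := by ring
          · rw [disjoint_left]
            intro p hp hp'
            rw [mem_filter, mem_range] at hp
            rw [mem_filter, mem_Ioc] at hp'
            omega
        have h3 : (12 * k / N : ℝ) ≤ 11 * k / x := by
          rw [div_le_div_iff₀ (by exact_mod_cast hN1) (by exact_mod_cast hx4)]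
          have h4 : (12 * x : ℝ) ≤ 11 * N := by
            have : 12 * x ≤ 11 * N := by omega
            exact_mod_cast this
          have hk : (0 : ℝ) ≤ k := Nat.cast_nonneg k
          have h6 := mul_le_mul_of_nonneg_left h4 hk
          calc (12 * k * x : ℝ) = k * (12 * x) := by ring
            _ ≤ k * (11 * N) := h6
            _ = 11 * k * N := by ring
        have h5 : (k / x : ℝ) + 11 * k / x = 12 * k / x := by ring
        linarith
  apply not_summable_one_div_on_primes
  refine summable_of_sum_range_le (c := S X1 + 12 * k + S (X0 + 1)) ?_ ?_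
  · intro n
    by_cases h : n ∈ {p : ℕ | p.Prime}
    · rw [Set.indicator_of_mem h]; positivity
    · rw [Set.indicator_of_notMem h]
  · intro n
    have e : ∑ i ∈ range n, Set.indicator {p : ℕ | p.Prime} (fun n : ℕ => (1 : ℝ) / n) i ≤ S n := by
      rw [S, sum_filter]
      have h1 : ∑ i ∈ range n, Set.indicator {p : ℕ | p.Prime} (fun n : ℕ => (1 : ℝ) / n) i =
          ∑ i ∈ range n, if Nat.Prime i then (1 : ℝ) / i else 0 := by
        apply sum_congr rfl
        intro i _
        simp only [Set.indicator, Set.mem_setOf_eq]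
      rw [h1]
      apply sum_le_sum_of_subset_of_nonneg
      · apply range_subset_range.2; omega
      · intro i _ _
        split_ifs
        · positivity
        · exact le_rfl
    refine e.trans ?_
    rcases Nat.lt_or_ge n (X0 + 1) with h | h
    · have h1 := hmono n (X0 + 1) h.le
      have h2 := hS X1
      have hk : (0 : ℝ) ≤ k := Nat.cast_nonneg k
      linarith
    · have h1 := key n (by omega) (by omega)
      have h2 : (0 : ℝ) ≤ 12 * k / n := by positivity
      have h3 := hS (X0 + 1)
      linarith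

/-! ### The dominating set -/

/-- residues modulo `3` -/
def rho (c r d : ℕ) : ℕ := if d < 2 * c then 0 else if d < 2 * c + r then 1 else 2

/-- residues modulo the medium primes -/
def sig (c d : ℕ) : ℕ := if d < 2 * c then d / 2 else d - c

lemma sig_lt {c s d : ℕ} (hc : 2 * c ≤ s) (hd : d < s) : sig c d < s - c := by
  unfold sig
  split_ifs with h <;> omega

lemma sig_inj {c d d' : ℕ} (h : sig c d = sig c d') (h2 : d < 2 * c → d' < 2 * c → d % 2 = d' % 2) :
    d = d' := by
  unfold sig at h
  split_ifs at h with h3 h4 h4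
  · have := h2 h3 h4; omega
  · omega
  · omega
  · omega

/-- the upper bound for the total domination number: `c, r` with `2 c = r + k`, `3 r + k` elements -/
theorem exists_total {c r k : ℕ} (hr : 1 ≤ r) (hck : 2 * c = r + k) {A B : Finset ℕ}
    (hA : ∀ p ∈ A, p.Prime ∧ 3 * r + k ≤ p + c) (hB : ∀ p ∈ B, p.Prime ∧ 3 * r + k ≤ p)
    (hAc : A.card ≤ k) (hAB : A.card + B.card + 1 ≤ 2 * r) (hdisj : Disjoint A B)
    (hn3 : Nat.Coprime 3 ((∏ p ∈ A, p) * ∏ p ∈ B, p)) :
    ∃ D : Finset (ZMod (3 * ((∏ p ∈ A, p) * ∏ p ∈ B, p))), D.card ≤ 3 * r + k ∧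
      ∀ v, ∃ d ∈ D, (X (3 * ((∏ p ∈ A, p) * ∏ p ∈ B, p))).Adj v d := by
  classical
  have hAne : (∏ p ∈ A, p) ≠ 0 := (Finset.prod_pos fun p hp => (hA p hp).1.pos).ne'
  have hBne : (∏ p ∈ B, p) ≠ 0 := (Finset.prod_pos fun p hp => (hB p hp).1.pos).ne'
  have hcoAB : Nat.Coprime (∏ p ∈ A, p) (∏ p ∈ B, p) := by
    refine Nat.Coprime.prod_left fun p hp => Nat.Coprime.prod_right fun q hq => ?_
    refine (Nat.coprime_primes (hA p hp).1 (hB q hq).1).2 ?_
    rintro rfl
    exact disjoint_left.1 hdisj hp hq
  have hex : ∀ d : ℕ, ∃ e : ℕ, e ≡ rho c r d [MOD 3] ∧ e ≡ sig c d [MOD (∏ p ∈ A, p)] ∧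
      e ≡ d [MOD (∏ p ∈ B, p)] := by
    intro d
    obtain ⟨e1, h1, h2⟩ := Nat.chineseRemainder hcoAB (sig c d) d
    obtain ⟨e, h3, h4⟩ := Nat.chineseRemainder hn3 (rho c r d) e1
    exact ⟨e, h3, (h4.of_dvd (Dvd.intro _ rfl)).trans h1, (h4.of_dvd (Dvd.intro_left _ rfl)).trans h2⟩
  choose e he3 heA heB using hex
  have hcop : ∀ V : ℤ, ∃ d < 3 * r + k,
      IsCoprime (V - (e d : ℕ)) ((3 * ((∏ p ∈ A, p) * ∏ p ∈ B, p) : ℕ) : ℤ) := by
    intro V
    by_contra hcon
    push Not at hcon
    -- the elements that are not killed by `3`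
    let U : Finset ℕ := (range (3 * r + k)).filter fun d => ¬ ((3 : ℤ) ∣ V - (e d : ℕ))
    have hf : ∀ d ∈ U, ∃ p ∈ A ∪ B, (p : ℤ) ∣ V - (e d : ℕ) := by
      intro d hd
      rw [mem_filter, mem_range] at hd
      by_contra hno
      push Not at hno
      apply hcon d hd.1
      push_cast
      have h3 : IsCoprime (V - (e d : ℕ)) 3 :=
        ((Prime.coprime_iff_not_dvd (Nat.prime_iff_prime_int.1 Nat.prime_three)).2 hd.2).symm
      refine IsCoprime.mul_right h3 (IsCoprime.mul_right ?_ ?_)
      · refine IsCoprime.prod_right fun p hp => ?_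
        have hprime : Prime (p : ℤ) := Nat.prime_iff_prime_int.1 (hA p hp).1
        exact ((Prime.coprime_iff_not_dvd hprime).2 (hno p (mem_union_left _ hp))).symm
      · refine IsCoprime.prod_right fun p hp => ?_
        have hprime : Prime (p : ℤ) := Nat.prime_iff_prime_int.1 (hB p hp).1
        exact ((Prime.coprime_iff_not_dvd hprime).2 (hno p (mem_union_right _ hp))).symm
    choose! f hf1 hf2 using hf
    have hinjA : ∀ d ∈ U, ∀ d' ∈ U, f d = f d' → f d ∈ A → sig c d = sig c d' := by
      intro d hd d' hd' hff hfA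
      have h1 := hf2 d hd
      have h2 := hf2 d' hd'
      rw [← hff] at h2
      have h3 := dvd_sub h2 h1
      have h4 : ((f d : ℕ) : ℤ) ∣ (e d : ℤ) - e d' := by
        have : V - (e d' : ℕ) - (V - (e d : ℕ)) = (e d : ℤ) - e d' := by push_cast; ring
        rwa [this] at h3
      have h5 : e d' ≡ e d [MOD f d] := (Nat.modEq_iff_dvd).2 h4
      have h6 : sig c d' ≡ sig c d [MOD f d] :=
        (((heA d').of_dvd (dvd_prod_of_mem (fun p : ℕ => p) hfA)).symm.trans h5).trans
          ((heA d).of_dvd (dvd_prod_of_mem (fun p : ℕ => p) hfA))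
      have hd1 := mem_range.1 (mem_filter.1 hd).1
      have hd2 := mem_range.1 (mem_filter.1 hd').1
      have hp := (hA _ hfA).2
      have h7 : sig c d < f d := (sig_lt (by omega) hd1).trans_le (by omega)
      have h8 : sig c d' < f d := (sig_lt (by omega) hd2).trans_le (by omega)
      have := Nat.ModEq.eq_of_lt_of_lt h6 h8 h7
      exact this.symm
    have hinjB : ∀ d ∈ U, ∀ d' ∈ U, f d = f d' → f d ∈ B → d = d' := by
      intro d hd d' hd' hff hfB
      have h1 := hf2 d hd
      have h2 := hf2 d' hd'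
      rw [← hff] at h2
      have h3 := dvd_sub h2 h1
      have h4 : ((f d : ℕ) : ℤ) ∣ (e d : ℤ) - e d' := by
        have : V - (e d' : ℕ) - (V - (e d : ℕ)) = (e d : ℤ) - e d' := by push_cast; ring
        rwa [this] at h3
      have h5 : e d' ≡ e d [MOD f d] := (Nat.modEq_iff_dvd).2 h4
      have h6 : d' ≡ d [MOD f d] :=
        (((heB d').of_dvd (dvd_prod_of_mem (fun p : ℕ => p) hfB)).symm.trans h5).trans
          ((heB d).of_dvd (dvd_prod_of_mem (fun p : ℕ => p) hfB))
      have hd1 := mem_range.1 (mem_filter.1 hd).1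
      have hd2 := mem_range.1 (mem_filter.1 hd').1
      have hp := (hB _ hfB).2
      have := Nat.ModEq.eq_of_lt_of_lt h6 (by omega) (by omega)
      exact this.symm
    have hmod : ∀ d, d ∈ U ↔ d < 3 * r + k ∧ ((rho c r d : ℕ) : ℤ) % 3 ≠ V % 3 := by
      intro d
      rw [mem_filter, mem_range]
      have h1 : ((e d : ℕ) : ℤ) % 3 = ((rho c r d : ℕ) : ℤ) % 3 := by
        have := he3 d
        unfold Nat.ModEq at this
        omega
      constructor
      · rintro ⟨h2, h3⟩
        refine ⟨h2, fun h4 => h3 ?_⟩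
        omega
      · rintro ⟨h2, h3⟩
        refine ⟨h2, fun h4 => h3 ?_⟩
        omega
    by_cases hV : V % 3 = 0
    · -- `V ≡ 0`: the map is injective
      have hU : Ico (2 * c) (3 * r + k) ⊆ U := by
        intro d hd
        rw [mem_Ico] at hd
        rw [hmod]
        refine ⟨hd.2, ?_⟩
        unfold rho
        rw [if_neg (by omega), hV]
        split_ifs <;> norm_num
      have h2c : ∀ d ∈ U, 2 * c ≤ d := by
        intro d hd
        by_contra h
        have := ((hmod d).1 hd).2
        unfold rho at this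
        rw [if_pos (by omega), hV] at this
        norm_num at this
      have hcard : U.card ≤ (A ∪ B).card := by
        apply card_le_card_of_injOn f (fun d hd => hf1 d hd)
        intro d hd d' hd' hff
        rcases mem_union.1 (hf1 d hd) with h | h
        · apply sig_inj (hinjA d hd d' hd' hff h)
          intro h1
          have := h2c d hd
          omega
        · exact hinjB d hd d' hd' hff h
      have h1 := card_le_card hU
      rw [Nat.card_Ico] at h1
      have h2 := card_union_le A B
      omega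
    · have hU : 2 * c + r ≤ U.card := by
        by_cases hV1 : V % 3 = 1
        · have hsub : range (2 * c) ∪ Ico (2 * c + r) (3 * r + k) ⊆ U := by
            intro d hd
            rw [mem_union, mem_range, mem_Ico] at hd
            rw [hmod]
            refine ⟨by omega, ?_⟩
            unfold rho
            rw [hV1]
            rcases hd with hd | hd
            · rw [if_pos hd]; norm_num
            · rw [if_neg (by omega), if_neg (by omega)]; norm_num
          have h1 := card_le_card hsub
          rw [card_union_of_disjoint, card_range, Nat.card_Ico] at h1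
          · omega
          · rw [disjoint_left]
            intro d hd hd'
            rw [mem_range] at hd
            rw [mem_Ico] at hd'
            omega
        · have hsub : range (2 * c + r) ⊆ U := by
            intro d hd
            rw [mem_range] at hd
            rw [hmod]
            refine ⟨by omega, ?_⟩
            have hV2 : V % 3 = 2 := by omega
            unfold rho
            rw [hV2]
            split_ifs <;> norm_num
          have h1 := card_le_card hsub
          rwa [card_range] at h1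
      have hcard : U.card ≤ ((A ×ˢ range 2) ∪ (B ×ˢ range 1)).card := by
        apply card_le_card_of_injOn (fun d => (f d, if f d ∈ A then d % 2 else 0))
        · intro d hd
          rw [mem_coe, mem_union, mem_product, mem_product, mem_range, mem_range]
          by_cases h : f d ∈ A
          · left
            refine ⟨h, ?_⟩
            simp only [h, if_true]
            omega
          · right
            have := mem_union.1 (hf1 d hd)
            refine ⟨this.resolve_left h, ?_⟩
            simp only [h, if_false]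
            omega
        · intro d hd d' hd' hff
          simp only [Prod.mk.injEq] at hff
          obtain ⟨h1, h2⟩ := hff
          rcases mem_union.1 (hf1 d hd) with h | h
          · rw [← h1, if_pos h, if_pos h] at h2
            exact sig_inj (hinjA d hd d' hd' h1 h) (fun _ _ => h2)
          · exact hinjB d hd d' hd' h1 h
      have h2 := card_union_le (A ×ˢ range 2) (B ×ˢ range 1)
      rw [card_product, card_product, card_range, card_range] at h2
      omega
  refine ⟨(range (3 * r + k)).image fun d => ((e d : ℕ) : ZMod (3 * ((∏ p ∈ A, p) * ∏ p ∈ B, p))),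
    card_image_le.trans (by rw [card_range]), fun v => ?_⟩
  have hN : 1 < 3 * ((∏ p ∈ A, p) * ∏ p ∈ B, p) := by
    have : 0 < (∏ p ∈ A, p) * ∏ p ∈ B, p := Nat.pos_of_ne_zero (mul_ne_zero hAne hBne)
    omega
  haveI : Fact (1 < 3 * ((∏ p ∈ A, p) * ∏ p ∈ B, p)) := ⟨hN⟩
  obtain ⟨V, rfl⟩ := ZMod.intCast_surjective v
  obtain ⟨d, hd, hc⟩ := hcop V
  have hu : IsUnit (((V - (e d : ℕ) : ℤ)) : ZMod (3 * ((∏ p ∈ A, p) * ∏ p ∈ B, p))) :=
    (ZMod.coe_int_isUnit_iff_isCoprime _ _).2 hc.symm
  rw [Int.cast_sub, Int.cast_natCast] at hu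
  refine ⟨_, mem_image_of_mem _ (mem_range.2 hd), ?_, hu⟩
  intro heq
  rw [heq, sub_self] at hu
  exact not_isUnit_zero hu

/-! ### The long interval -/

/-- the position of the first of the two numbers divisible by the medium prime `p` -/
def pos (A : Finset ℕ) (p : ℕ) : ℕ := 3 * (A.filter (· < p)).card + p % 3

lemma pos_lt {A : Finset ℕ} {p q : ℕ} (hp : p ∈ A) (hpq : p < q) (h3 : 1 ≤ q % 3) :
    pos A p < pos A q := by
  have h1 : (A.filter (· < p)).card < (A.filter (· < q)).card := by
    apply card_lt_card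
    rw [ssubset_iff_of_subset]
    · exact ⟨p, mem_filter.2 ⟨hp, hpq⟩, fun h => lt_irrefl _ (mem_filter.1 h).2⟩
    · intro a ha
      rw [mem_filter] at ha ⊢
      exact ⟨ha.1, ha.2.trans hpq⟩
  have h2 := Nat.mod_lt p (show 3 > 0 by norm_num)
  unfold pos
  omega

lemma pos_le {A : Finset ℕ} {p : ℕ} (hp : p ∈ A) : pos A p + 1 ≤ 3 * A.card := by
  have h1 : (A.filter (· < p)).card < A.card := by
    apply card_lt_card
    rw [ssubset_iff_of_subset (filter_subset _ _)]
    exact ⟨p, hp, fun h => lt_irrefl _ (mem_filter.1 h).2⟩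
  have h2 := Nat.mod_lt p (show 3 > 0 by norm_num)
  unfold pos
  omega

theorem jac {l : ℕ} {A B : Finset ℕ}
    (hA : ∀ p ∈ A, p.Prime ∧ 1 ≤ p % 3 ∧ 3 * A.card ≤ p ∧ p + 3 * A.card ≤ 3 * l + 1)
    (hB : ∀ p ∈ B, p.Prime) (hBc : 2 * l ≤ 2 * A.card + B.card) (hdisj : Disjoint A B)
    (hn3 : Nat.Coprime 3 ((∏ p ∈ A, p) * ∏ p ∈ B, p)) :
    3 * l + 2 ≤ jacobsthal (3 * ((∏ p ∈ A, p) * ∏ p ∈ B, p)) := by
  classical
  have hAne : 0 < (∏ p ∈ A, p) := (Finset.prod_pos fun p hp => (hA p hp).1.pos)
  have hBne : 0 < (∏ p ∈ B, p) := (Finset.prod_pos fun p hp => (hB p hp).pos)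
  let F : Finset ℕ := (range (3 * l + 1)).filter fun i => ¬ 3 ∣ i
  have hF : F.card ≤ 2 * l := by
    have h1 : F ⊆ (range (2 * l)).image fun j => 3 * (j / 2) + j % 2 + 1 := by
      intro i hi
      rw [mem_filter, mem_range] at hi
      rw [mem_image]
      refine ⟨2 * (i / 3) + i % 3 - 1, ?_, ?_⟩
      · rw [mem_range]; omega
      · omega
    exact (card_le_card h1).trans (card_image_le.trans (by rw [card_range]))
  let X1 : Finset ℕ := A.image (pos A)
  let X2 : Finset ℕ := A.image fun p => pos A p + p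
  have hinj1 : Set.InjOn (pos A) A := by
    intro p hp q hq h
    rcases lt_trichotomy p q with h1 | h1 | h1
    · have := pos_lt hp h1 (hA q hq).2.1; omega
    · exact h1
    · have := pos_lt hq h1 (hA p hp).2.1; omega
  have hinj2 : Set.InjOn (fun p => pos A p + p) A := by
    intro p hp q hq h
    dsimp only at h
    rcases lt_trichotomy p q with h1 | h1 | h1
    · have := pos_lt hp h1 (hA q hq).2.1; omega
    · exact h1
    · have := pos_lt hq h1 (hA p hp).2.1; omega
  have hX1 : X1.card = A.card := card_image_of_injOn hinj1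
  have hX2 : X2.card = A.card := card_image_of_injOn hinj2
  have hdisjX : Disjoint X1 X2 := by
    rw [disjoint_left]
    intro i h1 h2
    obtain ⟨p, hp, rfl⟩ := mem_image.1 h1
    obtain ⟨q, hq, h⟩ := mem_image.1 h2
    have h3 := pos_le hp
    have h4 := (hA q hq).2.2.1
    omega
  have hXF : X1 ∪ X2 ⊆ F := by
    intro i hi
    rw [mem_filter, mem_range]
    rcases mem_union.1 hi with h | h
    · obtain ⟨p, hp, rfl⟩ := mem_image.1 h
      have h1 := pos_le hp
      have h2 := hA p hp
      refine ⟨by omega, ?_⟩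
      unfold pos
      omega
    · obtain ⟨p, hp, rfl⟩ := mem_image.1 h
      have h1 := pos_le hp
      have h2 := hA p hp
      refine ⟨by omega, ?_⟩
      unfold pos
      omega
  let F' : Finset ℕ := F \ (X1 ∪ X2)
  have hF' : F'.card ≤ B.card := by
    have h1 : F'.card = F.card - (X1 ∪ X2).card := card_sdiff_of_subset hXF
    rw [card_union_of_disjoint hdisjX, hX1, hX2] at h1
    omega
  obtain ⟨e⟩ : Nonempty (F' ↪ B) :=
    Function.Embedding.nonempty_of_card_le (by
      rw [Fintype.card_coe, Fintype.card_coe]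
      exact hF')
  -- the positions
  let y : ℕ → ℕ := fun p => if p ∈ A then pos A p else
    if h : ∃ j : F', (e j : ℕ) = p then (h.choose : ℕ) else 0
  have hyA : ∀ p ∈ A, y p = pos A p := fun p hp => if_pos hp
  have hyB : ∀ j : F', y (e j) = (j : ℕ) := by
    intro j
    have h : ∃ j' : F', (e j' : ℕ) = (e j : ℕ) := ⟨j, rfl⟩
    have hnA : (e j : ℕ) ∉ A := fun h => disjoint_left.1 hdisj h (e j).2
    show (if (e j : ℕ) ∈ A then pos A (e j) else
      if h : ∃ j' : F', (e j' : ℕ) = (e j : ℕ) then (h.choose : ℕ) else 0) = _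
    rw [if_neg hnA, dif_pos h]
    have h2 : h.choose = j := e.injective (Subtype.ext h.choose_spec)
    rw [h2]
  have hprime : ∀ p ∈ A ∪ B, p.Prime := by
    intro p hp
    rcases mem_union.1 hp with h | h
    · exact (hA p h).1
    · exact hB p h
  obtain ⟨k, hk⟩ := Nat.chineseRemainderOfFinset (fun p => y p * (p - 1)) id (A ∪ B)
    (fun p hp => (hprime p hp).ne_zero)
    (fun p hp r hr hpr => (Nat.coprime_primes (hprime p hp) (hprime r hr)).2 hpr)
  obtain ⟨a, ha1, ha2⟩ := Nat.chineseRemainder hn3 0 k
  have hkill : ∀ p ∈ A ∪ B, p ∣ a + y p := by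
    intro p hp
    have hpd : p ∣ (∏ p ∈ A, p) * ∏ p ∈ B, p := by
      rcases mem_union.1 hp with h | h
      · exact Dvd.dvd.mul_right (dvd_prod_of_mem (fun p : ℕ => p) h) _
      · exact Dvd.dvd.mul_left (dvd_prod_of_mem (fun p : ℕ => p) h) _
    have h1 : a ≡ y p * (p - 1) [MOD p] := (ha2.of_dvd hpd).trans (hk p hp)
    have h4 : a + y p ≡ y p * (p - 1) + y p [MOD p] := h1.add_right _
    have h5 : y p * (p - 1) + y p = y p * p := by
      obtain ⟨m, hm⟩ : ∃ m, p = m + 1 := ⟨p - 1, by have := (hprime p hp).pos; omega⟩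
      rw [hm, Nat.add_sub_cancel]
      ring
    rw [h5] at h4
    exact (Nat.modEq_zero_iff_dvd).1 (h4.trans ((Nat.modEq_zero_iff_dvd).2 (dvd_mul_left _ _)))
  have hnot : ∀ i p : ℕ, p.Prime → p ∣ a + i → p ∣ 3 * ((∏ p ∈ A, p) * ∏ p ∈ B, p) →
      ¬ IsCoprime ((a : ℤ) + i) ((3 * ((∏ p ∈ A, p) * ∏ p ∈ B, p) : ℕ) : ℤ) := by
    intro i p hp h1 h2 hc
    have hc' : Nat.Coprime (a + i) (3 * ((∏ p ∈ A, p) * ∏ p ∈ B, p)) := by
      rw [← Nat.isCoprime_iff_coprime]
      push_cast at hc ⊢
      exact hc
    have h5 := Nat.dvd_gcd h1 h2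
    rw [hc'.gcd_eq_one] at h5
    exact hp.one_lt.ne' (Nat.dvd_one.1 h5)
  have hdvdA : ∀ p ∈ A, p ∣ 3 * ((∏ p ∈ A, p) * ∏ p ∈ B, p) := fun p h =>
    Dvd.dvd.mul_left (Dvd.dvd.mul_right (dvd_prod_of_mem (fun p : ℕ => p) h) _) _
  have hdvdB : ∀ p ∈ B, p ∣ 3 * ((∏ p ∈ A, p) * ∏ p ∈ B, p) := fun p h =>
    Dvd.dvd.mul_left (Dvd.dvd.mul_left (dvd_prod_of_mem (fun p : ℕ => p) h) _) _
  refine le_jacobsthal (by positivity) (a : ℤ) fun i hi => ?_
  by_cases h3 : 3 ∣ i
  · refine hnot i 3 Nat.prime_three ?_ (Dvd.intro _ rfl)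
    exact (Nat.dvd_add_right ((Nat.modEq_zero_iff_dvd).1 ha1)).2 h3
  · have hiF : i ∈ F := mem_filter.2 ⟨mem_range.2 hi, h3⟩
    by_cases h1 : i ∈ X1 ∪ X2
    · rcases mem_union.1 h1 with h | h
      · obtain ⟨p, hp, rfl⟩ := mem_image.1 h
        refine hnot _ p (hA p hp).1 ?_ (hdvdA p hp)
        have := hkill p (mem_union_left _ hp)
        rwa [hyA p hp] at this
      · obtain ⟨p, hp, rfl⟩ := mem_image.1 h
        refine hnot _ p (hA p hp).1 ?_ (hdvdA p hp)
        have := hkill p (mem_union_left _ hp)
        rw [hyA p hp] at this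
        rw [← add_assoc]
        exact Dvd.dvd.add this dvd_rfl
    · have hiF' : i ∈ F' := mem_sdiff.2 ⟨hiF, h1⟩
      let j : F' := ⟨i, hiF'⟩
      refine hnot _ (e j : ℕ) (hB _ (e j).2) ?_ (hdvdB _ (e j).2)
      have := hkill (e j) (mem_union_right _ (e j).2)
      rwa [hyB j] at this

/-- For every `K` there is `n` with at least `K` prime factors such that the total domination
number of the unitary Cayley graph is at most `g(n) - K`. -/
theorem main (K : ℕ) : ∃ n : ℕ, 2 ≤ n ∧ K ≤ n.primeFactors.card ∧
    ∃ D : Finset (ZMod n), D.card + K ≤ jacobsthal n ∧ ∀ v, ∃ d ∈ D, (X n).Adj v d := by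
  classical
  -- replace `K` by `K + 1 ≥ 1`
  obtain ⟨x, hx, hcard⟩ := many_primes (2 * K + 1) (200 * (K + 1))
  obtain ⟨A, hAsub, hAcard⟩ := exists_subset_card_eq hcard
  have hAp : ∀ p ∈ A, p.Prime ∧ x < p ∧ p ≤ 11 * x / 10 := by
    intro p hp
    have := hAsub hp
    rw [mem_filter, mem_Ioc] at this
    exact ⟨this.2, this.1.1, this.1.2⟩
  set r : ℕ := 2 * ((x - (2 * K + 1)) / 5) - 1 with hr
  set k : ℕ := 2 * K + 1 with hk
  have hr1 : 5 * r + k ≤ 2 * x := by omega
  have hr2 : 11 * x / 10 + 3 * K + 2 ≤ 3 * r := by omega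
  obtain ⟨c, hc⟩ : ∃ c, 2 * c = r + k := ⟨(r + k) / 2, by omega⟩
  have hinf : {p : ℕ | p.Prime ∧ 3 * r + k ≤ p}.Infinite := by
    have h1 : {p : ℕ | p.Prime ∧ 3 * r + k ≤ p} = {p : ℕ | p.Prime} \ (Set.Iio (3 * r + k)) := by
      ext p
      simp
    rw [h1]
    exact Nat.infinite_setOfPred_prime.sdiff (Set.finite_Iio _)
  obtain ⟨B, hBsub, hBcard⟩ := hinf.exists_subset_card_eq (2 * r - 2 * (K + 1))
  have hBp : ∀ p ∈ B, p.Prime ∧ 3 * r + k ≤ p := fun p hp => hBsub hp
  have hdisj : Disjoint A B := by
    rw [disjoint_left]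
    intro p hp hp'
    have h1 := hAp p hp
    have h2 := hBp p hp'
    omega
  have hmod : ∀ p : ℕ, p.Prime → 3 < p → 1 ≤ p % 3 := by
    intro p hp h3
    by_contra h
    have h4 : 3 ∣ p := by omega
    have := (Nat.prime_dvd_prime_iff_eq Nat.prime_three hp).1 h4
    omega
  have hn3 : Nat.Coprime 3 ((∏ p ∈ A, p) * ∏ p ∈ B, p) := by
    refine Nat.Coprime.mul_right ?_ ?_
    · refine Nat.Coprime.prod_right fun p hp => ?_
      refine (Nat.coprime_primes Nat.prime_three (hAp p hp).1).2 ?_
      have := hAp p hp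
      omega
    · refine Nat.Coprime.prod_right fun p hp => ?_
      refine (Nat.coprime_primes Nat.prime_three (hBp p hp).1).2 ?_
      have := hBp p hp
      omega
  have hposA : 0 < (∏ p ∈ A, p) := prod_pos fun p hp => (hAp p hp).1.pos
  have hposB : 0 < (∏ p ∈ B, p) := prod_pos fun p hp => (hBp p hp).1.pos
  have hpos : 0 < (∏ p ∈ A, p) * ∏ p ∈ B, p := Nat.mul_pos hposA hposB
  obtain ⟨D, hD, hD2⟩ := exists_total (c := c) (r := r) (k := k) (A := A) (B := B) (by omega) hc
    (fun p hp => ⟨(hAp p hp).1, by have := hAp p hp; omega⟩) hBp hAcard.le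
    (by rw [hAcard, hBcard]; omega) hdisj hn3
  have hj := jac (l := r + K) (A := A) (B := B)
    (fun p hp => ⟨(hAp p hp).1, hmod p (hAp p hp).1 (by have := hAp p hp; omega),
      by have := hAp p hp; rw [hAcard]; omega, by have := hAp p hp; rw [hAcard]; omega⟩)
    (fun p hp => (hBp p hp).1) (by rw [hAcard, hBcard]; omega) hdisj hn3
  refine ⟨3 * ((∏ p ∈ A, p) * ∏ p ∈ B, p), by omega, ?_, D, by omega, hD2⟩
  have h1 : B ⊆ (3 * ((∏ p ∈ A, p) * ∏ p ∈ B, p)).primeFactors := by
    intro p hp
    rw [Nat.mem_primeFactors]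
    exact ⟨(hBp p hp).1, Dvd.dvd.mul_left (Dvd.dvd.mul_left
      (dvd_prod_of_mem (fun p : ℕ => p) hp) _) _, by positivity⟩
  have := card_le_card h1
  omega

end Pool.Agent.X210.UCay2
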